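import Pool.Agent.D0H85.Iso.Defs

set_option autoImplicit false

namespace Pool.Agent.D0H85.Iso

open Real Set

/-- inner product with the unit vector of angle `t` -/
noncomputable def dt (x : Pl) (t : ℝ) : ℝ := x 0 * cos t + x 1 * sin t

lemma dt_sub (x y : Pl) (t : ℝ) : dt (x - y) t = dt x t - dt y t := by
  simp [dt]; ring

lemma continuous_dt : Continuous (fun p : ℝ × Pl => dt p.2 p.1) := by
  unfold dt
  fun_prop

/-- support function -/
noncomputable def hs (S : Set Pl) (t : ℝ) : ℝ := sSup ((fun x => dt x t) '' S)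

variable {S : Set Pl}

lemma le_hs (hS : IsCompact S) {x : Pl} (hx : x ∈ S) (t : ℝ) : dt x t ≤ hs S t := by
  apply le_csSup _ (mem_image_of_mem _ hx)
  exact (hS.image (continuous_dt.comp (Continuous.prodMk continuous_const continuous_id))).bddAbove

lemma exists_hs (hS : IsCompact S) (hne : S.Nonempty) (t : ℝ) : ∃ x ∈ S, dt x t = hs S t := by
  have hc : ContinuousOn (fun x => dt x t) S :=
    (continuous_dt.comp (Continuous.prodMk continuous_const continuous_id)).continuousOn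
  obtain ⟨x, hx, h1⟩ := hS.exists_sSup_image_eq hne hc
  exact ⟨x, hx, h1.symm⟩

lemma continuous_hs (hS : IsCompact S) : Continuous (hs S) := by
  have := hS.continuous_sSup (f := fun t x => dt x t) continuous_dt
  exact this

lemma hs_periodic (S : Set Pl) (t : ℝ) : hs S (t + 2 * π) = hs S t := by
  unfold hs dt
  simp

lemma eq_zero_of_dt {z : Pl} {t b : ℝ} (hb : sin b ≠ 0) (h1 : dt z t = 0) (h2 : dt z (t + b) = 0) :
    z = 0 := by
  unfold dt at h1 h2
  rw [cos_add, sin_add] at h2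
  have h3 : z 0 * sin b = 0 := by
    have e : z 0 * sin b = sin b * (z 0 * cos t + z 1 * sin t) * cos t
        - sin t * ((z 0 * (cos t * cos b - sin t * sin b) + z 1 * (sin t * cos b + cos t * sin b))
          - cos b * (z 0 * cos t + z 1 * sin t))
        + z 0 * sin b * (1 - (sin t ^ 2 + cos t ^ 2)) := by ring
    rw [e, h1, h2, sin_sq_add_cos_sq]; ring
  have h4 : z 1 * sin b = 0 := by
    have e : z 1 * sin b = sin b * (z 0 * cos t + z 1 * sin t) * sin t
        + cos t * ((z 0 * (cos t * cos b - sin t * sin b) + z 1 * (sin t * cos b + cos t * sin b))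
          - cos b * (z 0 * cos t + z 1 * sin t))
        + z 1 * sin b * (1 - (sin t ^ 2 + cos t ^ 2)) := by ring
    rw [e, h1, h2, sin_sq_add_cos_sq]; ring
  ext i
  fin_cases i
  · simpa [hb] using h3
  · simpa [hb] using h4

lemma inner_eq (x y : Pl) : inner ℝ x y = x 0 * y 0 + x 1 * y 1 := by
  simp [PiLp.inner_apply, Fin.sum_univ_two]
  ring

lemma norm_sq_eq (x : Pl) : ‖x‖ ^ 2 = x 0 ^ 2 + x 1 ^ 2 := by
  rw [EuclideanSpace.norm_sq_eq]
  simp [Fin.sum_univ_two]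

/-- coordinates in the cone -/
lemma coords {z : Pl} {t b : ℝ} (hb : sin b ≠ 0) :
    z 0 = (-(dt z (t + b)) / sin b) * sin t - (-(dt z t) / sin b) * sin (t + b) ∧
    z 1 = -(-(dt z (t + b)) / sin b) * cos t + (-(dt z t) / sin b) * cos (t + b) := by
  have hs : sin t ^ 2 + cos t ^ 2 = 1 := sin_sq_add_cos_sq t
  unfold dt
  rw [cos_add, sin_add]
  constructor
  · field_simp
    linear_combination (-(z 0 * sin b)) * hs
  · field_simp
    linear_combination (-(z 1 * sin b)) * hs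

lemma cone_ineq {A B C D c s : ℝ} (hA : 0 ≤ A) (hB : 0 ≤ B) (hC : 0 ≤ C) (hD : 0 ≤ D)
    (hs : 0 < s) (hcs : s ^ 2 + c ^ 2 = 1) :
    -c * |A * D - B * C| ≤ A * C + B * D - c * (A * D + B * C) := by
  have hc1 : c ≤ 1 := by nlinarith
  have hc2 : -1 ≤ c := by nlinarith
  have key : ∀ p q : ℝ, 0 ≤ q → q ≤ p → p * q = A * C * (B * D) → 
      0 ≤ A * C + B * D - 2 * c * q := by
    intro p q hq hpq h
    have h1 : 0 ≤ A * C := mul_nonneg hA hC
    have h2 : 0 ≤ B * D := mul_nonneg hB hD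
    have h3 : q ^ 2 ≤ A * C * (B * D) := by nlinarith
    have h4 : (2 * q) ^ 2 ≤ (A * C + B * D) ^ 2 := by nlinarith [sq_nonneg (A * C - B * D)]
    have h5 : 2 * q ≤ A * C + B * D := by
      exact (abs_le_of_sq_le_sq' h4 (by positivity)).2
    nlinarith
  rcases le_total (B * C) (A * D) with h | h
  · rw [abs_of_nonneg (by linarith)]
    have := key (A * D) (B * C) (mul_nonneg hB hC) h (by ring)
    nlinarith
  · rw [abs_of_nonpos (by linarith)]
    have := key (B * C) (A * D) (mul_nonneg hA hD) h (by ring)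
    nlinarith

lemma final_ineq {c s I D N : ℝ} (hcs : s ^ 2 + c ^ 2 = 1) (hN : 0 ≤ N)
    (h1 : N ^ 2 = I ^ 2 + (s * D) ^ 2) (h2 : -c * |D| ≤ I) : -c * N ≤ I := by
  have hD : D ^ 2 = |D| ^ 2 := (sq_abs D).symm
  have hD0 : 0 ≤ |D| := abs_nonneg D
  rcases le_total c 0 with hc | hc
  · have hI : 0 ≤ I := le_trans (mul_nonneg (by linarith) hD0) h2
    have h3 : (-c * |D|) ^ 2 ≤ I ^ 2 := pow_le_pow_left₀ (mul_nonneg (by linarith) hD0) h2 2
    have h4 : (-c * N) ^ 2 ≤ I ^ 2 := by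
      have : (-c * N) ^ 2 = c ^ 2 * I ^ 2 + s ^ 2 * (-c * |D|) ^ 2 := by
        rw [mul_pow, h1, mul_pow, hD]; ring
      rw [this]
      nlinarith [sq_nonneg s]
    exact abs_le_of_sq_le_sq' h4 hI |>.2
  · rcases le_total 0 I with hI | hI
    · nlinarith [mul_nonneg hc hN]
    · have h3 : (-I) ^ 2 ≤ (c * |D|) ^ 2 := pow_le_pow_left₀ (by linarith) (by linarith) 2
      have h4 : (-I) ^ 2 ≤ (c * N) ^ 2 := by
        have : (c * N) ^ 2 = c ^ 2 * I ^ 2 + s ^ 2 * (c * |D|) ^ 2 := by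
          rw [mul_pow, h1, mul_pow, hD]; ring
        rw [this]
        nlinarith [sq_nonneg s]
      have := abs_le_of_sq_le_sq' h4 (mul_nonneg hc hN) |>.2
      linarith

/-- two vectors of a cone of opening `π - b` -/
lemma cone_inner {z w : Pl} {t b : ℝ} (hb : 0 < b) (hb' : b < π)
    (hz1 : dt z t ≤ 0) (hz2 : dt z (t + b) ≤ 0) (hw1 : dt w t ≤ 0) (hw2 : dt w (t + b) ≤ 0) :
    -cos b * (‖z‖ * ‖w‖) ≤ inner ℝ z w := by
  have hs : 0 < sin b := sin_pos_of_pos_of_lt_pi hb hb'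
  obtain ⟨z0, z1⟩ := coords (z := z) (t := t) hs.ne'
  obtain ⟨w0, w1⟩ := coords (z := w) (t := t) hs.ne'
  set A := -(dt z (t + b)) / sin b with hA
  set B := -(dt z t) / sin b with hB
  set C := -(dt w (t + b)) / sin b with hC
  set D := -(dt w t) / sin b with hD
  have A0 : 0 ≤ A := div_nonneg (by linarith) hs.le
  have B0 : 0 ≤ B := div_nonneg (by linarith) hs.le
  have C0 : 0 ≤ C := div_nonneg (by linarith) hs.le
  have D0 : 0 ≤ D := div_nonneg (by linarith) hs.le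
  have e1 : sin t ^ 2 + cos t ^ 2 = 1 := sin_sq_add_cos_sq t
  have e2 : sin (t + b) ^ 2 + cos (t + b) ^ 2 = 1 := sin_sq_add_cos_sq _
  have e3 : cos b = cos (t + b) * cos t + sin (t + b) * sin t := by
    rw [← cos_sub]; congr 1; ring
  have e4 : sin b = sin (t + b) * cos t - cos (t + b) * sin t := by
    rw [← sin_sub]; congr 1; ring
  have hI : inner ℝ z w = A * C + B * D - cos b * (A * D + B * C) := by
    rw [inner_eq, z0, z1, w0, w1, e3]
    linear_combination (A * C) * e1 + (B * D) * e2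
  have hcs : sin b ^ 2 + cos b ^ 2 = 1 := sin_sq_add_cos_sq b
  have hN : (‖z‖ * ‖w‖) ^ 2 = (inner ℝ z w) ^ 2 + (sin b * (A * D - B * C)) ^ 2 := by
    rw [mul_pow, norm_sq_eq, norm_sq_eq, inner_eq]
    have : sin b * (A * D - B * C) = z 1 * w 0 - z 0 * w 1 := by
      rw [z0, z1, w0, w1, e4]; ring
    rw [this]; ring
  refine final_ineq hcs (by positivity) hN ?_
  rw [hI]
  exact cone_ineq A0 B0 C0 D0 hs hcs

lemma angle_le {z w : Pl} {t b : ℝ} (hb : 0 < b) (hb' : b < π) (hz : z ≠ 0) (hw : w ≠ 0)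
    (hz1 : dt z t ≤ 0) (hz2 : dt z (t + b) ≤ 0) (hw1 : dt w t ≤ 0) (hw2 : dt w (t + b) ≤ 0) :
    InnerProductGeometry.angle z w ≤ π - b := by
  have h := cone_inner hb hb' hz1 hz2 hw1 hw2
  have hp : 0 < ‖z‖ * ‖w‖ := mul_pos (norm_pos_iff.2 hz) (norm_pos_iff.2 hw)
  have h1 : cos (π - b) ≤ inner ℝ z w / (‖z‖ * ‖w‖) := by
    rw [cos_pi_sub, le_div_iff₀ hp]; exact h
  unfold InnerProductGeometry.angle
  calc arccos (inner ℝ z w / (‖z‖ * ‖w‖)) ≤ arccos (cos (π - b)) := arccos_le_arccos h1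
    _ = π - b := arccos_cos (by linarith) (by linarith)

lemma angle_eq {z w : Pl} {t b : ℝ} (hb : 0 < b) (hb' : b < π) (hz : z ≠ 0) (hw : w ≠ 0)
    (hz1 : dt z t = 0) (hz2 : dt z (t + b) ≤ 0) (hw1 : dt w t ≤ 0) (hw2 : dt w (t + b) = 0) :
    InnerProductGeometry.angle z w = π - b := by
  have hs : 0 < sin b := sin_pos_of_pos_of_lt_pi hb hb'
  have hp : 0 < ‖z‖ * ‖w‖ := mul_pos (norm_pos_iff.2 hz) (norm_pos_iff.2 hw)
  obtain ⟨z0, z1⟩ := coords (z := z) (t := t) hs.ne'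
  obtain ⟨w0, w1⟩ := coords (z := w) (t := t) hs.ne'
  rw [hz1, neg_zero, zero_div, zero_mul] at z0 z1
  rw [hw2, neg_zero, zero_div, zero_mul] at w0
  rw [hw2, neg_zero, zero_div, neg_zero, zero_mul] at w1
  set A := -(dt z (t + b)) / sin b with hA
  set D := -(dt w t) / sin b with hD
  have A0 : 0 ≤ A := div_nonneg (by linarith) hs.le
  have D0 : 0 ≤ D := div_nonneg (by linarith) hs.le
  have e1 : sin t ^ 2 + cos t ^ 2 = 1 := sin_sq_add_cos_sq t
  have e2 : sin (t + b) ^ 2 + cos (t + b) ^ 2 = 1 := sin_sq_add_cos_sq _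
  have e3 : cos b = cos (t + b) * cos t + sin (t + b) * sin t := by
    rw [← cos_sub]; congr 1; ring
  have nz : ‖z‖ = A := by
    have : ‖z‖ ^ 2 = A ^ 2 := by
      rw [norm_sq_eq, z0, z1]; linear_combination (A ^ 2) * e1
    exact (pow_left_inj₀ (norm_nonneg _) A0 two_ne_zero).1 this
  have nw : ‖w‖ = D := by
    have : ‖w‖ ^ 2 = D ^ 2 := by
      rw [norm_sq_eq, w0, w1]; linear_combination (D ^ 2) * e2
    exact (pow_left_inj₀ (norm_nonneg _) D0 two_ne_zero).1 this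
  have hI : inner ℝ z w = -cos b * (A * D) := by
    rw [inner_eq, z0, z1, w0, w1, e3]; ring
  unfold InnerProductGeometry.angle
  rw [nz, nw] at hp ⊢
  rw [hI, mul_div_assoc, div_self hp.ne', mul_one, ← cos_pi_sub]
  exact arccos_cos (by linarith) (by linarith)

/-- the angle of sight at the intersection of two support lines -/
lemma sight_eq (hS : IsCompact S) (hne : S.Nonempty) {P : Pl} (hP : P ∉ S) {t b : ℝ}
    (hb : 0 < b) (hb' : b < π) (h1 : dt P t = hs S t) (h2 : dt P (t + b) = hs S (t + b)) :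
    sight S P = π - b := by
  have hne' : ∀ x ∈ S, x - P ≠ 0 := by
    intro x hx h
    rw [sub_eq_zero] at h
    exact hP (h ▸ hx)
  have hle1 : ∀ x ∈ S, dt (x - P) t ≤ 0 := by
    intro x hx; rw [dt_sub, h1]; linarith [le_hs hS hx t]
  have hle2 : ∀ x ∈ S, dt (x - P) (t + b) ≤ 0 := by
    intro x hx; rw [dt_sub, h2]; linarith [le_hs hS hx (t + b)]
  obtain ⟨x1, hx1, e1⟩ := exists_hs hS hne t
  obtain ⟨x2, hx2, e2⟩ := exists_hs hS hne (t + b)
  apply IsGreatest.csSup_eq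
  constructor
  · refine ⟨x1, hx1, x2, hx2, ?_⟩
    unfold EuclideanGeometry.angle
    rw [vsub_eq_sub, vsub_eq_sub]
    refine (angle_eq hb hb' (hne' x1 hx1) (hne' x2 hx2) ?_ (hle2 x1 hx1) (hle1 x2 hx2) ?_).symm
    · rw [dt_sub, e1, h1, sub_self]
    · rw [dt_sub, e2, h2, sub_self]
  · rintro a ⟨x, hx, y, hy, rfl⟩
    unfold EuclideanGeometry.angle
    rw [vsub_eq_sub, vsub_eq_sub]
    exact angle_le hb hb' (hne' x hx) (hne' y hy) (hle1 x hx) (hle2 x hx) (hle1 y hy) (hle2 y hy)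

end Pool.Agent.D0H85.Iso
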