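import Pool.Agent.D0H85.Iso.Basic

set_option autoImplicit false

namespace Pool.Agent.D0H85.Iso

open Real Set

variable {S : Set Pl}

/-- component orthogonal to the unit vector of angle `t` -/
noncomputable def dv (x : Pl) (t : ℝ) : ℝ := -x 0 * sin t + x 1 * cos t

lemma dv_sub (x y : Pl) (t : ℝ) : dv (x - y) t = dv x t - dv y t := by
  simp [dv]; ring

lemma norm_sq_dt (z : Pl) (t : ℝ) : ‖z‖ ^ 2 = dt z t ^ 2 + dv z t ^ 2 := by
  rw [norm_sq_eq]
  unfold dt dv
  linear_combination (-(z 0 ^ 2 + z 1 ^ 2)) * sin_sq_add_cos_sq t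

lemma dt_add (z : Pl) (t b : ℝ) : dt z (t + b) = cos b * dt z t + sin b * dv z t := by
  unfold dt dv
  rw [cos_add, sin_add]; ring

lemma dt_sub' (z : Pl) (t b : ℝ) : dt z (t - b) = cos b * dt z t - sin b * dv z t := by
  unfold dt dv
  rw [cos_sub, sin_sub]; ring

lemma eq_zero_of_dt_dv {z : Pl} {t : ℝ} (h1 : dt z t = 0) (h2 : dv z t = 0) : z = 0 := by
  have := norm_sq_dt z t
  rw [h1, h2] at this
  simpa using this

/-- second coordinate of the intersection of two support lines -/
noncomputable def yp (S : Set Pl) (b t : ℝ) : ℝ := (hs S (t + b) - hs S t * cos b) / sin b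

/-- the intersection of the support lines of angles `t` and `t + b` -/
noncomputable def Pt (S : Set Pl) (b t : ℝ) : Pl :=
  !₂[hs S t * cos t - yp S b t * sin t, hs S t * sin t + yp S b t * cos t]

lemma dt_Pt (S : Set Pl) (b t : ℝ) : dt (Pt S b t) t = hs S t := by
  simp only [dt, Pt]
  simp
  linear_combination (hs S t) * sin_sq_add_cos_sq t

lemma dv_Pt (S : Set Pl) (b t : ℝ) : dv (Pt S b t) t = yp S b t := by
  simp only [dv, Pt]
  simp
  linear_combination (yp S b t) * sin_sq_add_cos_sq t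

lemma dt_Pt' {b : ℝ} (hb : sin b ≠ 0) (S : Set Pl) (t : ℝ) :
    dt (Pt S b t) (t + b) = hs S (t + b) := by
  rw [dt_add, dt_Pt, dv_Pt, yp]
  field_simp
  ring

lemma continuous_Pt (hS : IsCompact S) (b : ℝ) : Continuous (Pt S b) := by
  have h1 := continuous_hs hS
  have h2 : Continuous (yp S b) := by
    unfold yp
    fun_prop
  unfold Pt
  apply (PiLp.continuous_toLp 2 _).comp
  refine continuous_pi fun i => ?_
  fin_cases i
  · simp; fun_prop
  · simp; fun_prop

lemma sight_subsingleton (h : S.Subsingleton) {Q : Pl} (hQ : Q ∉ S) : sight S Q = 0 := by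
  unfold sight
  rcases S.eq_empty_or_nonempty with h0 | ⟨p, hp⟩
  · subst h0; simp
  · have : {a : ℝ | ∃ x ∈ S, ∃ y ∈ S, a = EuclideanGeometry.angle x Q y} = {0} := by
      ext a
      constructor
      · rintro ⟨x, hx, y, hy, rfl⟩
        rw [h hx hy]
        have : y ≠ Q := fun e => hQ (e ▸ hy)
        simp [EuclideanGeometry.angle_self_of_ne this]
      · rintro rfl
        have : p ≠ Q := fun e => hQ (e ▸ hp)
        exact ⟨p, hp, p, hp, by simp [EuclideanGeometry.angle_self_of_ne this]⟩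
    rw [this, csSup_singleton]

lemma not_subsingleton {α : ℝ} (hα : 0 < α) {c : Pl} {r : ℝ} (hr : 0 < r)
    (h : isoptic S α = Metric.sphere c r) : ¬ S.Subsingleton := by
  intro hs
  obtain ⟨Q, hQ⟩ : (Metric.sphere c r).Nonempty := NormedSpace.sphere_nonempty.2 hr.le
  rw [← h] at hQ
  have := sight_subsingleton hs hQ.1
  have h2 := hQ.2
  linarith

lemma Pt_step (hS : IsCompact S) {b : ℝ} (hb' : b < π) (h : ∀ t, Pt S b t ∈ S)
    {δ : ℝ} (hδ : 0 < δ) (hδ' : δ < b) (t : ℝ) : Pt S b (t + δ) = Pt S b t := by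
  have hb : 0 < b := hδ.trans hδ'
  have hsb : 0 < sin b := sin_pos_of_pos_of_lt_pi hb hb'
  have hs1 : 0 < sin δ := sin_pos_of_pos_of_lt_pi hδ (hδ'.trans hb')
  have hs2 : 0 < sin (b - δ) := sin_pos_of_pos_of_lt_pi (by linarith) (by linarith)
  rw [← sub_eq_zero]
  set z := Pt S b (t + δ) - Pt S b t with hz
  have h1 : dt z t ≤ 0 := by
    rw [hz, dt_sub, dt_Pt]; linarith [le_hs hS (h (t + δ)) t]
  have h2 : dt z (t + b) ≤ 0 := by
    rw [hz, dt_sub, dt_Pt' hsb.ne']; linarith [le_hs hS (h (t + δ)) (t + b)]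
  have h3 : 0 ≤ dt z (t + δ) := by
    rw [hz, dt_sub, dt_Pt]; linarith [le_hs hS (h t) (t + δ)]
  have h4 : sin b * dt z (t + δ) = sin (b - δ) * dt z t + sin δ * dt z (t + b) := by
    rw [dt_add, dt_add, sin_sub]; ring
  have h5 : dt z t = 0 := by nlinarith [mul_nonneg hsb.le h3]
  have h6 : dt z (t + b) = 0 := by nlinarith [mul_nonneg hsb.le h3]
  exact eq_zero_of_dt hsb.ne' h5 h6

lemma exists_not_mem (hS : IsCompact S) {b : ℝ} (hb : 0 < b) (hb' : b < π)
    (hns : ¬ S.Subsingleton) : ∃ t, Pt S b t ∉ S := by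
  by_contra hcon
  push Not at hcon
  have hlc : IsLocallyConstant (Pt S b) := by
    rw [IsLocallyConstant.iff_eventually_eq]
    intro t
    filter_upwards [Metric.ball_mem_nhds t hb] with s hs
    rw [Metric.mem_ball, Real.dist_eq] at hs
    rcases lt_trichotomy s t with h | h | h
    · have := Pt_step hS hb' hcon (δ := t - s) (by linarith)
        (by rw [abs_lt] at hs; linarith) s
      rw [add_sub_cancel] at this
      exact this.symm
    · rw [h]
    · have := Pt_step hS hb' hcon (δ := s - t) (by linarith)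
        (by rw [abs_lt] at hs; linarith) t
      rw [add_sub_cancel] at this
      exact this
  apply hns
  have key : ∀ x ∈ S, x = Pt S b 0 := by
    intro x hx
    have h1 : ∀ t, dt (x - Pt S b 0) t ≤ 0 := by
      intro t
      rw [dt_sub, hlc.apply_eq_of_preconnectedSpace 0 t, dt_Pt]
      linarith [le_hs hS hx t]
    rw [← sub_eq_zero]
    have a1 := h1 0
    have a2 := h1 π
    have a3 := h1 (π / 2)
    have a4 := h1 (-(π / 2))
    have e1 : dt (x - Pt S b 0) 0 = (x - Pt S b 0) 0 := by simp [dt]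
    have e2 : dt (x - Pt S b 0) π = -(x - Pt S b 0) 0 := by simp [dt]
    have e3 : dt (x - Pt S b 0) (π / 2) = (x - Pt S b 0) 1 := by simp [dt]
    have e4 : dt (x - Pt S b 0) (-(π / 2)) = -(x - Pt S b 0) 1 := by simp [dt]
    rw [e1] at a1
    rw [e2] at a2
    rw [e3] at a3
    rw [e4] at a4
    ext i
    fin_cases i
    · exact le_antisymm a1 (by simpa using a2)
    · exact le_antisymm a3 (by simpa using a4)
  intro x hx y hy
  rw [key x hx, key y hy]

lemma all_outside (hS : IsCompact S) {b : ℝ} (hb : 0 < b) (hb' : b < π) {c : Pl} {r : ℝ}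
    (hr : 0 < r) (h : isoptic S (π - b) = Metric.sphere c r) (t : ℝ) :
    Pt S b t ∉ S ∧ Pt S b t ∈ Metric.sphere c r := by
  have hns := not_subsingleton (by linarith : (0:ℝ) < π - b) hr h
  have hne : S.Nonempty := by
    rw [Set.nonempty_iff_ne_empty]
    rintro rfl
    exact hns subsingleton_empty
  have hsb : 0 < sin b := sin_pos_of_pos_of_lt_pi hb hb'
  have hmem : ∀ t, Pt S b t ∉ S → Pt S b t ∈ Metric.sphere c r := by
    intro t ht
    rw [← h]
    exact ⟨ht, sight_eq hS hne ht hb hb' (dt_Pt S b t) (dt_Pt' hsb.ne' S t)⟩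
  have hmem' : ∀ t, Pt S b t ∈ Metric.sphere c r → Pt S b t ∉ S := by
    intro t ht
    rw [← h] at ht
    exact ht.1
  have hclopen : IsClopen {t | Pt S b t ∈ S} := by
    constructor
    · exact hS.isClosed.preimage (continuous_Pt hS b)
    · rw [← isClosed_compl_iff]
      have : {t | Pt S b t ∈ S}ᶜ = Pt S b ⁻¹' (Metric.sphere c r) := by
        ext t
        exact ⟨fun ht => hmem t ht, fun ht => hmem' t ht⟩
      rw [this]
      exact Metric.isClosed_sphere.preimage (continuous_Pt hS b)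
  have hemp : {t | Pt S b t ∈ S} = ∅ := by
    rcases isClopen_iff.1 hclopen with h0 | h0
    · exact h0
    · obtain ⟨s, hs⟩ := exists_not_mem hS hb hb' hns
      exact absurd (by rw [h0]; trivial : s ∈ {t | Pt S b t ∈ S}) hs
  have ht : Pt S b t ∉ S := by
    intro ht
    have : t ∈ {t | Pt S b t ∈ S} := ht
    rw [hemp] at this
    exact this
  exact ⟨ht, hmem t ht⟩

lemma Pt_ne (hS : IsCompact S) (hne : S.Nonempty) {b : ℝ} (hb : 0 < b) (hb' : b < π) {t : ℝ}
    (ht : Pt S b t ∉ S) : Pt S b t ≠ Pt S b (t - b) := by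
  intro e
  have hsb : 0 < sin b := sin_pos_of_pos_of_lt_pi hb hb'
  obtain ⟨x, hx, h0⟩ := exists_hs hS hne t
  apply ht
  have h1 : dt (x - Pt S b t) t = 0 := by rw [dt_sub, dt_Pt, h0, sub_self]
  have h2 : dt (x - Pt S b t) (t + b) ≤ 0 := by
    rw [dt_sub, dt_Pt' hsb.ne']; linarith [le_hs hS hx (t + b)]
  have h3 : dt (x - Pt S b t) (t - b) ≤ 0 := by
    rw [e, dt_sub, dt_Pt]; linarith [le_hs hS hx (t - b)]
  rw [dt_add, h1] at h2
  rw [dt_sub', h1] at h3
  have h4 : dv (x - Pt S b t) t = 0 := by nlinarith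
  have h5 := eq_zero_of_dt_dv h1 h4
  rw [sub_eq_zero] at h5
  rwa [← h5]

/-- support function with respect to the point `c` -/
noncomputable def gf (S : Set Pl) (c : Pl) (t : ℝ) : ℝ := hs S t - dt c t

/-- the two identities given by a circular isoptic -/
lemma gf_eqs (hS : IsCompact S) {b : ℝ} (hb : 0 < b) (hb' : b < π) {c : Pl} {r : ℝ}
    (hr : 0 < r) (h : isoptic S (π - b) = Metric.sphere c r) (t : ℝ) :
    gf S c t ^ 2 + gf S c (t + b) ^ 2 - 2 * gf S c t * gf S c (t + b) * cos b = r ^ 2 * sin b ^ 2 ∧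
    gf S c (t + b) = gf S c (t - b) := by
  have hns := not_subsingleton (by linarith : (0:ℝ) < π - b) hr h
  have hne : S.Nonempty := by
    rw [Set.nonempty_iff_ne_empty]
    rintro rfl
    exact hns subsingleton_empty
  have hsb : 0 < sin b := sin_pos_of_pos_of_lt_pi hb hb'
  obtain ⟨h1, h2⟩ := all_outside hS hb hb' hr h t
  obtain ⟨_, h4⟩ := all_outside hS hb hb' hr h (t - b)
  have h5 := Pt_ne hS hne hb hb' h1
  rw [mem_sphere_iff_norm] at h2 h4
  set z := Pt S b t - c with hz
  set z' := Pt S b (t - b) - c with hz'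
  have a1 : dt z t = gf S c t := by rw [hz, dt_sub, dt_Pt]; rfl
  have a2 : dt z (t + b) = gf S c (t + b) := by rw [hz, dt_sub, dt_Pt' hsb.ne']; rfl
  have a3 : dt z' (t - b) = gf S c (t - b) := by rw [hz', dt_sub, dt_Pt]; rfl
  have a4 : dt z' t = gf S c t := by
    have := dt_Pt' hsb.ne' S (t - b)
    rw [sub_add_cancel] at this
    rw [hz', dt_sub, this]; rfl
  have n1 := norm_sq_dt z t
  have n2 := norm_sq_dt z' t
  rw [h2, a1] at n1
  rw [h4, a4] at n2
  rw [dt_add, a1] at a2
  rw [dt_sub', a4] at a3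
  have hne2 : dv z t ≠ dv z' t := by
    intro e
    apply h5
    have : z - z' = 0 := by
      apply eq_zero_of_dt_dv (t := t)
      · rw [dt_sub, a1, a4, sub_self]
      · rw [dv_sub, e, sub_self]
    rw [hz, hz', sub_sub_sub_cancel_right, sub_eq_zero] at this
    exact this
  have hsum : dv z t + dv z' t = 0 := by
    have : (dv z t - dv z' t) * (dv z t + dv z' t) = 0 := by nlinarith
    rcases mul_eq_zero.1 this with h0 | h0
    · exact absurd (sub_eq_zero.1 h0) hne2
    · exact h0
  constructor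
  · rw [← a2]
    linear_combination (sin b ^ 2) * (-n1) + (-(gf S c t ^ 2)) * sin_sq_add_cos_sq b
  · rw [← a2, ← a3]
    linear_combination (sin b) * hsum

end Pool.Agent.D0H85.Iso
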