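import Mathlib

/-!
Isoptics of compact convex sets in the plane: definitions.
-/

set_option autoImplicit false

namespace Pool.Agent.D0H85.Iso

open Real EuclideanGeometry

/-- the Euclidean plane -/
abbrev Pl := EuclideanSpace ℝ (Fin 2)

/-- The angle of sight of `S` at `P`: the largest angle between two rays from `P` through points
of `S`. -/
noncomputable def sight (S : Set Pl) (P : Pl) : ℝ :=
  sSup {a : ℝ | ∃ x ∈ S, ∃ y ∈ S, a = ∠ x P y}

/-- The isoptic of `S` at the angle `α`: the points outside `S` at which the angle of sight of `S`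
is `α`. -/
def isoptic (S : Set Pl) (α : ℝ) : Set Pl := {P | P ∉ S ∧ sight S P = α}

/-- `S` has a circular isoptic at `α`. -/
def Circular (S : Set Pl) (α : ℝ) : Prop :=
  0 < α ∧ α < π ∧ ∃ c : Pl, ∃ r : ℝ, 0 < r ∧ isoptic S α = Metric.sphere c r

end Pool.Agent.D0H85.Iso
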