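import Pool.Agent.D0H85.Iso.Circle

set_option autoImplicit false

namespace Pool.Agent.D0H85.Iso

open Real Set

variable {S : Set Pl}

lemma dt_diff (w : Pl) (t b : ℝ) : dt w (t + 2 * b) - dt w t = 2 * sin b * dv w (t + b) := by
  unfold dt dv
  have e1 : cos (t + 2 * b) = cos (t + b) * cos b - sin (t + b) * sin b := by
    rw [← cos_add]; congr 1; ring
  have e2 : sin (t + 2 * b) = sin (t + b) * cos b + cos (t + b) * sin b := by
    rw [← sin_add]; congr 1; ring
  have e3 : cos t = cos (t + b) * cos b + sin (t + b) * sin b := by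
    rw [← cos_sub]; congr 1; ring
  have e4 : sin t = sin (t + b) * cos b - cos (t + b) * sin b := by
    rw [← sin_sub]; congr 1; ring
  rw [e1, e2, e3, e4]; ring

lemma dv_diff (w : Pl) (t b : ℝ) : dv w (t + 2 * b) - dv w t = -(2 * sin b * dt w (t + b)) := by
  unfold dt dv
  have e1 : cos (t + 2 * b) = cos (t + b) * cos b - sin (t + b) * sin b := by
    rw [← cos_add]; congr 1; ring
  have e2 : sin (t + 2 * b) = sin (t + b) * cos b + cos (t + b) * sin b := by
    rw [← sin_add]; congr 1; ring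
  have e3 : cos t = cos (t + b) * cos b + sin (t + b) * sin b := by
    rw [← cos_sub]; congr 1; ring
  have e4 : sin t = sin (t + b) * cos b - cos (t + b) * sin b := by
    rw [← sin_sub]; congr 1; ring
  rw [e1, e2, e3, e4]; ring

/-- the two centres coincide -/
lemma centres {b b' : ℝ} (hb : sin b ≠ 0) (hb' : sin b' ≠ 0) {c c' : Pl}
    (h : ∀ t, gf S c (t + 2 * b) = gf S c t) (h' : ∀ t, gf S c' (t + 2 * b') = gf S c' t) :
    c = c' := by
  have hd : ∀ t, dt (c' - c) t = gf S c t - gf S c' t := by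
    intro t; unfold gf; rw [dt_sub]; ring
  have key : ∀ t, dt (c' - c) (t + b + b') = 0 := by
    intro t
    have e1 := dt_diff (c' - c) t b
    have e2 := dt_diff (c' - c) (t + 2 * b') b
    have e3 := dv_diff (c' - c) (t + b) b'
    have e4 : t + 2 * b' + b = t + b + 2 * b' := by ring
    rw [e4] at e2
    have e5 : dt (c' - c) (t + 2 * b' + 2 * b) - dt (c' - c) (t + 2 * b') -
        (dt (c' - c) (t + 2 * b) - dt (c' - c) t) = 0 := by
      rw [hd, hd, hd, hd, h (t + 2 * b'), h t]
      have e6 : t + 2 * b' + 2 * b = t + 2 * b + 2 * b' := by ring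
      rw [e6, h' (t + 2 * b), h' t]
      ring
    have e7 : sin b * sin b' * dt (c' - c) (t + b + b') = 0 := by
      linear_combination (-1 / 4) * e5 + (1 / 4) * e2 - (1 / 4) * e1
        + (1 / 2) * sin b * e3
    rcases mul_eq_zero.1 e7 with h0 | h0
    · exact absurd h0 (mul_ne_zero hb hb')
    · exact h0
  have k1 := key (-(b + b'))
  have k2 := key (π / 2 - (b + b'))
  have a1 : -(b + b') + b + b' = 0 := by ring
  have a2 : π / 2 - (b + b') + b + b' = π / 2 := by ring
  rw [a1] at k1
  rw [a2] at k2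
  simp only [dt, cos_zero, sin_zero, cos_pi_div_two, sin_pi_div_two, mul_one, mul_zero, add_zero,
    zero_add] at k1 k2
  symm
  rw [← sub_eq_zero]
  ext i
  fin_cases i
  · exact k1
  · exact k2

lemma const_of_finite {g : ℝ → ℝ} (hg : Continuous g) (hf : (range g).Finite) (s t : ℝ) :
    g s = g t := by
  have h1 : IsPreconnected (range g) := isPreconnected_range hg
  have h2 : IsTotallyDisconnected (range g) := hf.countable.isTotallyDisconnected
  exact h2 _ subset_rfl h1 (mem_range_self s) (mem_range_self t)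

lemma finite_quartic (p q : ℝ) : {x : ℝ | (x ^ 2) ^ 2 - q * x ^ 2 + p = 0}.Finite := by
  have h : ((Polynomial.X ^ 4 - Polynomial.C q * Polynomial.X ^ 2 + Polynomial.C p :
      Polynomial ℝ)) ≠ 0 := by
    intro h0
    have := congrArg (fun P : Polynomial ℝ => P.coeff 4) h0
    simp [Polynomial.coeff_X_pow] at this
  refine (Polynomial.finite_setOfPred_isRoot h).subset ?_
  intro x hx
  simp only [mem_ofPred_eq] at hx
  show Polynomial.IsRoot _ x
  simp only [Polynomial.IsRoot, Polynomial.eval_add, Polynomial.eval_sub, Polynomial.eval_mul,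
    Polynomial.eval_pow, Polynomial.eval_X, Polynomial.eval_C]
  linear_combination hx

lemma finite_square (k : ℝ) : {x : ℝ | x ^ 2 = k}.Finite := by
  refine (finite_quartic (k ^ 2) (2 * k)).subset ?_
  intro x hx
  simp only [mem_ofPred_eq] at hx ⊢
  rw [hx]; ring

/-- the group of periods -/
def per (g : ℝ → ℝ) : AddSubgroup ℝ where
  carrier := {p | ∀ t, g (t + p) = g t}
  zero_mem' := by intro t; rw [add_zero]
  add_mem' := by
    intro p q hp hq t
    rw [← add_assoc, hq, hp]
  neg_mem' := by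
    intro p hp t
    have := hp (t + -p)
    rw [neg_add_cancel_right] at this
    exact this.symm

lemma mem_per {g : ℝ → ℝ} {p : ℝ} : p ∈ per g ↔ ∀ t, g (t + p) = g t := Iff.rfl

lemma const {g : ℝ → ℝ} (hg : Continuous g) {b b' r r' : ℝ} (hb : 0 < b) (hbp : b < π)
    (hb' : 0 < b') (hbp' : b' < π) (hne : b ≠ b')
    (h1 : ∀ t, g t ^ 2 + g (t + b) ^ 2 - 2 * g t * g (t + b) * cos b = r)
    (h2 : ∀ t, g t ^ 2 + g (t + b') ^ 2 - 2 * g t * g (t + b') * cos b' = r')
    (h3 : 2 * b ∈ per g) (h4 : 2 * b' ∈ per g) (s t : ℝ) : g s = g t := by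
  have hcos : ∀ x : ℝ, 0 < x → x < π → 0 < 2 - 2 * cos x := by
    intro x hx hx'
    have : cos x < 1 := by
      rw [← cos_zero]
      exact cos_lt_cos_of_nonneg_of_le_pi (le_refl _) hx'.le hx
    linarith
  have easy : ∀ x ρ : ℝ, 0 < x → x < π → x ∈ per g →
      (∀ t, g t ^ 2 + g (t + x) ^ 2 - 2 * g t * g (t + x) * cos x = ρ) → g s = g t := by
    intro x ρ hx hx' hxp h
    apply const_of_finite hg
    refine (finite_square (ρ / (2 - 2 * cos x))).subset ?_
    rintro _ ⟨y, rfl⟩
    have := h y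
    rw [mem_per.1 hxp y] at this
    simp only [mem_ofPred_eq]
    rw [eq_div_iff (hcos x hx hx').ne']
    linear_combination this
  rcases AddSubgroup.dense_or_cyclic (per g) with hd | ⟨a, ha⟩
  · have : ∀ p, g p = g 0 := by
      have hcl : IsClosed {p | g p = g 0} := isClosed_eq hg continuous_const
      intro p
      have : closure ((per g : AddSubgroup ℝ) : Set ℝ) ⊆ {p | g p = g 0} := by
        apply hcl.closure_subset_iff.2
        intro q hq
        have := (mem_per.1 hq) 0
        rwa [zero_add] at this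
      exact this (hd p)
    rw [this s, this t]
  · have hmem : ∀ k : ℤ, (k : ℝ) * a ∈ per g := by
      intro k
      rw [ha]
      have := AddSubgroup.zsmul_mem _ (AddSubgroup.subset_closure (mem_singleton a)) k
      rwa [zsmul_eq_mul] at this
    have hex : ∀ x ∈ per g, ∃ k : ℤ, x = k * a := by
      intro x hx
      rw [ha, AddSubgroup.mem_closure_singleton] at hx
      obtain ⟨k, hk⟩ := hx
      exact ⟨k, by rw [← hk, zsmul_eq_mul]⟩
    obtain ⟨k, hk⟩ := hex _ h3
    obtain ⟨k', hk'⟩ := hex _ h4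
    rcases Int.even_or_odd' k with ⟨m, hm | hm⟩
    · apply easy b r hb hbp _ h1
      have := hmem m
      have e : (m : ℝ) * a = b := by
        rw [hm] at hk; push_cast at hk; linarith
      rwa [e] at this
    · rcases Int.even_or_odd' k' with ⟨m', hm' | hm'⟩
      · apply easy b' r' hb' hbp' _ h2
        have := hmem m'
        have e : (m' : ℝ) * a = b' := by
          rw [hm'] at hk'; push_cast at hk'; linarith
        rwa [e] at this
      · have hbb : b - b' ∈ per g := by
          have := hmem (m - m')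
          have e : ((m - m' : ℤ) : ℝ) * a = b - b' := by
            rw [hm] at hk; rw [hm'] at hk'; push_cast at hk hk' ⊢; linarith
          rwa [e] at this
        have hsame : ∀ t, g (t + b) = g (t + b') := by
          intro t
          have := mem_per.1 hbb (t + b')
          rwa [add_assoc, add_sub_cancel] at this
        have hc : cos b - cos b' ≠ 0 := by
          intro h0
          apply hne
          exact injOn_cos ⟨hb.le, hbp.le⟩ ⟨hb'.le, hbp'.le⟩ (sub_eq_zero.1 h0)
        apply const_of_finite hg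
        obtain ⟨p, hp⟩ : ∃ p, p = (r' - r) / (2 * (cos b - cos b')) := ⟨_, rfl⟩
        refine (finite_quartic (p ^ 2) (r + 2 * p * cos b)).subset ?_
        rintro _ ⟨y, rfl⟩
        have e1 := h1 y
        have e2 := h2 y
        rw [← hsame y] at e2
        have e3 : g y * g (y + b) = p := by
          rw [hp, eq_div_iff (mul_ne_zero two_ne_zero hc)]
          linear_combination e2 - e1
        simp only [mem_ofPred_eq]
        have e4 : g y ^ 2 + g (y + b) ^ 2 = r + 2 * p * cos b := by
          linear_combination e1 + 2 * cos b * e3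
        linear_combination (g y ^ 2) * e4 - (g y * g (y + b) + p) * e3

lemma exists_polar (z : Pl) : ∃ t, z 0 = ‖z‖ * cos t ∧ z 1 = ‖z‖ * sin t := by
  refine ⟨Complex.arg ⟨z 0, z 1⟩, ?_⟩
  have h : ‖(⟨z 0, z 1⟩ : ℂ)‖ = ‖z‖ := by
    have h1 : ‖(⟨z 0, z 1⟩ : ℂ)‖ ^ 2 = ‖z‖ ^ 2 := by
      rw [← Complex.normSq_eq_norm_sq, Complex.normSq_mk, norm_sq_eq]; ring
    exact (pow_left_inj₀ (norm_nonneg _) (norm_nonneg _) two_ne_zero).1 h1
  have h1 := Complex.norm_mul_cos_arg (⟨z 0, z 1⟩ : ℂ)
  have h2 := Complex.norm_mul_sin_arg (⟨z 0, z 1⟩ : ℂ)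
  rw [h] at h1 h2
  exact ⟨h1.symm, h2.symm⟩

lemma abs_dt_le (z : Pl) (t : ℝ) : dt z t ≤ ‖z‖ := by
  have h := norm_sq_dt z t
  have h1 : dt z t ^ 2 ≤ ‖z‖ ^ 2 := by rw [h]; nlinarith [sq_nonneg (dv z t)]
  exact (abs_le_of_sq_le_sq' h1 (norm_nonneg _)).2

lemma disk (hS : IsCompact S) (hc : Convex ℝ S) (hne : S.Nonempty) {c : Pl} {ρ : ℝ}
    (h : ∀ t, hs S t = dt c t + ρ) : S = Metric.closedBall c ρ := by
  ext x
  rw [mem_closedBall_iff_norm]
  constructor
  · intro hx
    obtain ⟨t, h0, h1⟩ := exists_polar (x - c)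
    have e : dt (x - c) t = ‖x - c‖ := by
      unfold dt
      rw [h0, h1]
      linear_combination ‖x - c‖ * sin_sq_add_cos_sq t
    rw [← e, dt_sub]
    linarith [le_hs hS hx t, h t]
  · intro hx
    by_contra hxS
    obtain ⟨f, u, hf1, hf2⟩ := geometric_hahn_banach_closed_point hc hS.isClosed hxS
    set v := (InnerProductSpace.toDual ℝ Pl).symm f with hv
    have hf : ∀ y, f y = v 0 * y 0 + v 1 * y 1 := by
      intro y
      rw [← inner_eq, hv, InnerProductSpace.toDual_symm_apply]
    obtain ⟨t, h0, h1⟩ := exists_polar v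
    have hf' : ∀ y, f y = ‖v‖ * dt y t := by
      intro y; rw [hf, h0, h1]; unfold dt; ring
    obtain ⟨y, hy, hyt⟩ := exists_hs hS hne t
    have a1 := hf1 y hy
    rw [hf'] at a1 hf2
    have a2 : ‖v‖ * dt y t < ‖v‖ * dt x t := lt_trans a1 hf2
    have hv0 : 0 < ‖v‖ := by
      rcases (norm_nonneg v).lt_or_eq with h2 | h2
      · exact h2
      · rw [← h2] at a2; simp at a2
    have a3 : dt y t < dt x t := lt_of_mul_lt_mul_left a2 hv0.le
    rw [hyt, h t] at a3
    have a4 := abs_dt_le (x - c) t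
    rw [dt_sub] at a4
    linarith

lemma isoptic_disk (hS : IsCompact S) (hne : S.Nonempty) {c : Pl} {ρ : ℝ} (hρ : 0 < ρ)
    (h : ∀ t, hs S t = dt c t + ρ) (hd : S = Metric.closedBall c ρ) {α : ℝ} (hα : 0 < α)
    (hα' : α < π) : isoptic S α = Metric.sphere c (ρ / sin (α / 2)) := by
  have hsin : 0 < sin (α / 2) := sin_pos_of_pos_of_lt_pi (by linarith) (by linarith)
  have hsin1 : sin (α / 2) < 1 := by
    rw [← sin_pi_div_two]
    exact sin_lt_sin_of_lt_of_le_pi_div_two (by linarith) (le_refl _) (by linarith)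
  have key : ∀ P : Pl, ρ < ‖P - c‖ → sight S P = π - 2 * arccos (ρ / ‖P - c‖) := by
    intro P hP
    have hd0 : 0 < ‖P - c‖ := hρ.trans hP
    have hq : ρ / ‖P - c‖ < 1 := (div_lt_one hd0).2 hP
    have hq0 : 0 < ρ / ‖P - c‖ := div_pos hρ hd0
    obtain ⟨θ, h0, h1⟩ := exists_polar (P - c)
    have hPS : P ∉ S := by
      rw [hd, mem_closedBall_iff_norm]; linarith
    have ha : 0 < arccos (ρ / ‖P - c‖) := arccos_pos.2 hq
    have ha' : arccos (ρ / ‖P - c‖) < π / 2 := arccos_lt_pi_div_two.2 hq0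
    have hcos : cos (arccos (ρ / ‖P - c‖)) = ρ / ‖P - c‖ := cos_arccos (by linarith) hq.le
    have hdt : ∀ x, dt (P - c) x = ‖P - c‖ * cos (x - θ) := by
      intro x; unfold dt; rw [h0, h1, cos_sub]; ring
    set a := arccos (ρ / ‖P - c‖) with haa
    apply sight_eq hS hne hPS (t := θ - a) (by linarith) (by linarith)
    · have e := hdt (θ - a)
      have e1 : θ - a - θ = -a := by ring
      rw [e1, cos_neg, hcos, mul_div_cancel₀ _ hd0.ne', dt_sub] at e
      rw [h]; linarith
    · have e := hdt (θ - a + 2 * a)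
      have e1 : θ - a + 2 * a - θ = a := by ring
      rw [e1, hcos, mul_div_cancel₀ _ hd0.ne', dt_sub] at e
      rw [h]; linarith
  have hcos2 : cos ((π - α) / 2) = sin (α / 2) := by
    rw [← cos_pi_div_two_sub]; congr 1; ring
  ext P
  rw [mem_sphere_iff_norm]
  constructor
  · rintro ⟨hPS, hP⟩
    have hP1 : ρ < ‖P - c‖ := by
      rw [hd, mem_closedBall_iff_norm] at hPS
      exact not_le.1 hPS
    rw [key P hP1] at hP
    have hd0 : 0 < ‖P - c‖ := hρ.trans hP1
    have e : arccos (ρ / ‖P - c‖) = (π - α) / 2 := by linarith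
    have e2 : ρ / ‖P - c‖ = sin (α / 2) := by
      rw [← hcos2, ← e, cos_arccos]
      · have : 0 < ρ / ‖P - c‖ := div_pos hρ hd0
        linarith
      · exact ((div_lt_one hd0).2 hP1).le
    rw [eq_div_iff hsin.ne', ← e2]
    field_simp
  · intro hP
    have hP1 : ρ < ‖P - c‖ := by
      rw [hP, lt_div_iff₀ hsin]; nlinarith
    refine ⟨?_, ?_⟩
    · rw [hd, mem_closedBall_iff_norm]; linarith
    · rw [key P hP1, hP, div_div_cancel₀ hρ.ne', ← hcos2, arccos_cos (by linarith) (by linarith)]
      ring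

/-- Two circular isoptics: the set is a disk. -/
theorem two_isoptics (hS : IsCompact S) (hc : Convex ℝ S) {α β : ℝ} (hne : α ≠ β)
    (hα : Circular S α) (hβ : Circular S β) :
    ∃ c : Pl, ∃ ρ : ℝ, 0 < ρ ∧ S = Metric.closedBall c ρ ∧
      ∀ γ, 0 < γ → γ < π → isoptic S γ = Metric.sphere c (ρ / sin (γ / 2)) := by
  obtain ⟨hα0, hα1, c, r, hr, h1⟩ := hα
  obtain ⟨hβ0, hβ1, c', r', hr', h2⟩ := hβ
  have hns := not_subsingleton hα0 hr h1
  have hSne : S.Nonempty := by
    rw [Set.nonempty_iff_ne_empty]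
    rintro rfl
    exact hns subsingleton_empty
  obtain ⟨b, hb⟩ : ∃ b, α = π - b := ⟨π - α, by ring⟩
  obtain ⟨b', hb'⟩ : ∃ b, β = π - b := ⟨π - β, by ring⟩
  subst hb hb'
  have hb0 : 0 < b := by linarith
  have hb1 : b < π := by linarith
  have hb0' : 0 < b' := by linarith
  have hb1' : b' < π := by linarith
  have p1 : ∀ t, gf S c (t + 2 * b) = gf S c t := by
    intro t
    have := (gf_eqs hS hb0 hb1 hr h1 (t + b)).2
    rw [add_sub_cancel_right] at this
    rw [← this]; congr 1; ring
  have p2 : ∀ t, gf S c' (t + 2 * b') = gf S c' t := by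
    intro t
    have := (gf_eqs hS hb0' hb1' hr' h2 (t + b')).2
    rw [add_sub_cancel_right] at this
    rw [← this]; congr 1; ring
  have hcc : c = c' := centres (sin_pos_of_pos_of_lt_pi hb0 hb1).ne'
    (sin_pos_of_pos_of_lt_pi hb0' hb1').ne' p1 p2
  subst hcc
  have hcont : Continuous (gf S c) := by
    unfold gf
    have h3 := continuous_hs hS
    have h4 : Continuous (fun t => dt c t) := by unfold dt; fun_prop
    exact h3.sub h4
  have hconst : ∀ t, gf S c t = gf S c 0 := fun t => const hcont hb0 hb1 hb0' hb1'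
    (fun e => hne (by rw [e]))
    (fun t => (gf_eqs hS hb0 hb1 hr h1 t).1) (fun t => (gf_eqs hS hb0' hb1' hr' h2 t).1)
    p1 p2 t 0
  set ρ := gf S c 0 with hρ
  have hh : ∀ t, hs S t = dt c t + ρ := by
    intro t
    have := hconst t
    unfold gf at this
    linarith
  have hd := disk hS hc hSne hh
  have hρ0 : 0 < ρ := by
    by_contra hcon
    apply hns
    rw [hd]
    exact Metric.subsingleton_closedBall c (not_lt.1 hcon)
  exact ⟨c, ρ, hρ0, hd, fun γ h3 h4 => isoptic_disk hS hSne hρ0 hh hd h3 h4⟩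

end Pool.Agent.D0H85.Iso
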